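import Pool.Agent.Q113.XK.Stm
import Pool.Agent.Q224.XM.CLQ

/-! Project XK (helper113), job PFM: perfect fractional matchings in a nearly complete part. -/

set_option autoImplicit false

namespace Pool.Agent.Q176.XK

open Finset Pool.Agent.W890.SF Pool.Agent.Q113.XM Pool.Agent.Q113.XK Pool.Agent.Q224.XM

theorem card_avoid {V : Type} [DecidableEq V] (T : Finset V) (j : ℕ) {v : V} (hv : v ∈ T) :
    ((T.powersetCard j).filter (fun J => v ∉ J)).card = (T.card - 1).choose j := by
  have h : (T.powersetCard j).filter (fun J => v ∉ J) = (T.erase v).powersetCard j := by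
    ext J
    simp only [mem_filter, mem_powersetCard]
    constructor
    · rintro ⟨⟨h1, h2⟩, h3⟩
      exact ⟨fun x hx => mem_erase.2 ⟨fun h => h3 (h ▸ hx), h1 hx⟩, h2⟩
    · rintro ⟨h1, h2⟩
      exact ⟨⟨h1.trans (erase_subset _ _), h2⟩, fun h => notMem_erase v T (h1 h)⟩
  rw [h, card_powersetCard, card_erase_of_mem hv]

theorem t_PFM (hPMN : S_PMN) : S_PFM := by
  classical
  intro k hk c hc
  obtain ⟨γ, hγ, n1, h1⟩ := hPMN k hk (c / 2) (by positivity)
  obtain ⟨n2, hn2⟩ := exists_nat_ge (2 * k / c + 1)
  refine ⟨γ, hγ, max n1 n2, ?_⟩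
  intro n hn F hF T hT hms
  have hn1 : n1 ≤ n := (le_max_left _ _).trans hn
  have hn2' : 2 * k / c + 1 ≤ (n : ℝ) := hn2.trans (by exact_mod_cast (le_max_right _ _).trans hn)
  have hk0 : (0 : ℝ) < k := by exact_mod_cast (by omega : 0 < k)
  have p1 : 0 < 2 * k / c := by positivity
  have hnpos : (0 : ℝ) < n := by linarith
  have hkn : 2 * (k : ℝ) ≤ c * n := by
    have : 2 * k / c ≤ (n : ℝ) := by linarith
    rw [div_le_iff₀ hc] at this
    linarith
  obtain ⟨N, hN⟩ : ∃ N, T.card = N := ⟨_, rfl⟩
  obtain ⟨q, j, hj, hq⟩ : ∃ q j : ℕ, j < k ∧ N = k * q + j :=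
    ⟨N / k, N % k, Nat.mod_lt _ (by omega), (Nat.div_add_mod N k).symm⟩
  have hNr : (N : ℝ) = k * q + j := by rw [hq]; push_cast; ring
  have hjr : (j : ℝ) < k := by exact_mod_cast hj
  have hkq : c / 2 * n ≤ k * q := by
    have h2 : c * n ≤ (N : ℝ) := by rw [← hN]; exact hT
    linarith
  have hkq0 : (0 : ℝ) < k * q := lt_of_lt_of_le (by positivity) hkq
  have hex : ∀ J ∈ T.powersetCard j, ∃ M ⊆ F, Mtch M ∧ M.card = q ∧ ∀ e ∈ M, e ⊆ T \ J := by
    intro J hJ
    rw [mem_powersetCard] at hJ
    have hc1 : (T \ J).card = k * q := by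
      rw [card_sdiff_of_subset hJ.1, hJ.2, hN, hq]
      omega
    apply h1 n hn1 F hF (T \ J) q hc1
    · rw [hc1]
      push_cast
      exact hkq
    · intro v hv
      have h2 := hms v (mem_sdiff.1 hv).1
      have h3 : (ms k F (T \ J) v : ℝ) ≤ (ms k F T v : ℝ) := by
        exact_mod_cast ms_mono k F sdiff_subset v
      linarith
  choose! M hM1 hM2 hM3 hM4 using hex
  set C : ℕ := N.choose j with hC
  have hCpos : (0 : ℝ) < C := by
    rw [hC]
    exact_mod_cast Nat.choose_pos (by omega : j ≤ N)
  set a : ℝ := N / (k * q * C) with ha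
  have ha0 : 0 ≤ a := by positivity
  have hPc : (T.powersetCard j).card = C := by rw [card_powersetCard, hN]
  -- the sum over a set of edges
  have hsum : ∀ G : Finset (Finset (Fin n)),
      ∑ e ∈ G, a * (((T.powersetCard j).filter (fun J => e ∈ M J)).card : ℝ) =
      a * ∑ J ∈ T.powersetCard j, ((G.filter (fun e => e ∈ M J)).card : ℝ) := by
    intro G
    rw [← mul_sum]
    congr 1
    have h2 : ∑ e ∈ G, ((T.powersetCard j).filter (fun J => e ∈ M J)).card =
        ∑ J ∈ T.powersetCard j, (G.filter (fun e => e ∈ M J)).card := by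
      simp only [card_filter]
      rw [sum_comm]
    exact_mod_cast h2
  refine ⟨fun e => a * (((T.powersetCard j).filter (fun J => e ∈ M J)).card : ℝ), ?_, ?_, ?_, ?_⟩
  · intro e
    positivity
  · intro e _ hne
    have h2 : (((T.powersetCard j).filter (fun J => e ∈ M J)).card : ℝ) ≠ 0 := by
      intro h
      apply hne
      simp only [h, mul_zero]
    have h3 : ((T.powersetCard j).filter (fun J => e ∈ M J)).card ≠ 0 := by exact_mod_cast h2
    rw [card_ne_zero] at h3
    obtain ⟨J, hJ⟩ := h3
    rw [mem_filter] at hJ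
    exact (hM4 J hJ.1 e hJ.2).trans sdiff_subset
  · intro v
    simp only
    rw [hsum]
    by_cases hv : v ∈ T
    · have h2 : ∀ J ∈ T.powersetCard j,
          ((((F.filter (fun e => v ∈ e)).filter (fun e => e ∈ M J)).card : ℕ) : ℝ) ≤
          if v ∉ J then 1 else 0 := by
        intro J hJ
        by_cases hvJ : v ∉ J
        · rw [if_pos hvJ]
          have : ((F.filter (fun e => v ∈ e)).filter (fun e => e ∈ M J)).card ≤ 1 := by
            rw [card_le_one]
            intro e he f hf
            rw [mem_filter, mem_filter] at he hf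
            by_contra hne
            exact disjoint_left.1 (hM2 J hJ e he.2 f hf.2 hne) he.1.2 hf.1.2
          exact_mod_cast this
        · rw [if_neg hvJ]
          rw [not_not] at hvJ
          have : ((F.filter (fun e => v ∈ e)).filter (fun e => e ∈ M J)).card = 0 := by
            rw [card_eq_zero, filter_eq_empty_iff]
            intro e he heM
            rw [mem_filter] at he
            exact (mem_sdiff.1 (hM4 J hJ e heM he.2)).2 hvJ
          rw [this]
          norm_num
      have h3 := sum_le_sum h2
      rw [← sum_filter, sum_const, nsmul_eq_mul, mul_one, card_avoid T j hv, hN] at h3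
      have h4 := mul_le_mul_of_nonneg_left h3 ha0
      refine h4.trans (le_of_eq ?_)
      have hN1 : N - 1 + 1 = N := by
        have : 0 < N := by
          rw [← hN]
          exact card_pos.2 ⟨v, hv⟩
        omega
      have h5 := Nat.choose_mul_succ_eq (N - 1) j
      rw [hN1] at h5
      have h6 : N - j = k * q := by omega
      rw [h6] at h5
      have h7 : (((N - 1).choose j : ℕ) : ℝ) * N = C * (k * q) := by
        rw [hC]
        exact_mod_cast h5
      rw [ha, div_mul_eq_mul_div, div_eq_one_iff_eq (by positivity)]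
      linarith
    · have h2 : ∀ J ∈ T.powersetCard j,
          ((((F.filter (fun e => v ∈ e)).filter (fun e => e ∈ M J)).card : ℕ) : ℝ) = 0 := by
        intro J hJ
        have : ((F.filter (fun e => v ∈ e)).filter (fun e => e ∈ M J)).card = 0 := by
          rw [card_eq_zero, filter_eq_empty_iff]
          intro e he heM
          rw [mem_filter] at he
          exact hv ((mem_sdiff.1 (hM4 J hJ e heM he.2)).1)
        rw [this]
        norm_num
      rw [sum_eq_zero h2, mul_zero]
      norm_num
  · simp only
    rw [hsum]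
    have h2 : ∀ J ∈ T.powersetCard j,
        (((F.filter (fun e => e ∈ M J)).card : ℕ) : ℝ) = q := by
      intro J hJ
      have : F.filter (fun e => e ∈ M J) = M J := by
        ext e
        simp only [mem_filter]
        exact ⟨fun h => h.2, fun h => ⟨hM1 J hJ h, h⟩⟩
      rw [this, hM3 J hJ]
    rw [sum_congr rfl h2, sum_const, nsmul_eq_mul, hPc, hN, ha]
    apply le_of_eq
    have hq0 : (q : ℝ) ≠ 0 := by
      intro h
      rw [h, mul_zero] at hkq0
      exact lt_irrefl _ hkq0
    field_simp

end Pool.Agent.Q176.XK
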